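import Pool.Agent.R932.ZD.Stm

set_option autoImplicit false

/-!
Project PO/ZD: Zariski density of small isometries (task ZD-ZD), using `S_CAY2`.
-/

open Matrix MvPolynomial Topology Filter

namespace Pool.Agent.R932.ZD

/-! ### clearing denominators -/

theorem clear {σ σ' L : Type} [Field L] (y D : σ' → MvPolynomial σ L) (f : MvPolynomial σ' L) :
    ∃ p q : MvPolynomial σ L, ∀ z : σ → L, (∀ x, eval z (D x) ≠ 0) →
      eval z q ≠ 0 ∧ eval z p = eval z q * eval (fun x => eval z (y x) / eval z (D x)) f := by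
  induction f using MvPolynomial.induction_on with
  | C a => exact ⟨C a, 1, fun z _ => by simp⟩
  | add f1 f2 h1 h2 =>
    obtain ⟨p1, q1, h1⟩ := h1
    obtain ⟨p2, q2, h2⟩ := h2
    refine ⟨p1 * q2 + p2 * q1, q1 * q2, fun z hz => ?_⟩
    obtain ⟨a1, b1⟩ := h1 z hz
    obtain ⟨a2, b2⟩ := h2 z hz
    refine ⟨by rw [map_mul]; exact mul_ne_zero a1 a2, ?_⟩
    rw [map_add, map_mul, map_mul, map_mul, map_add, b1, b2]
    ring
  | mul_X f1 x h1 =>
    obtain ⟨p1, q1, h1⟩ := h1
    refine ⟨p1 * y x, q1 * D x, fun z hz => ?_⟩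
    obtain ⟨a1, b1⟩ := h1 z hz
    refine ⟨by rw [map_mul]; exact mul_ne_zero a1 (hz x), ?_⟩
    rw [map_mul, map_mul, map_mul, b1, eval_X]
    have := hz x
    field_simp

/-! ### the matrices -/

section defs

variable {n : ℕ} {Q R R' : Type} [CommRing Q] [CommRing R] [CommRing R']

/-- the parametrisation of the Lie algebra -/
def XX (j : Q →+* R) (s : ℤ) (Ji : Matrix (Fin n) (Fin n) Q) (w : Matrix (Fin n) (Fin n) R) :
    Matrix (Fin n) (Fin n) R := Ji.map j * (w - s • wᵀ)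

theorem XX_map (j : Q →+* R) (φ : R →+* R') (s : ℤ) (Ji : Matrix (Fin n) (Fin n) Q)
    (w : Matrix (Fin n) (Fin n) R) :
    (XX j s Ji w).map φ = XX (φ.comp j) s Ji (w.map φ) := by
  unfold XX
  rw [Matrix.map_mul]
  congr 1
  ext a b
  change φ (w a b - s • w b a) = φ (w a b) - s • φ (w b a)
  rw [map_sub, map_zsmul]

/-- numerator of the product of two Cayley transforms -/
def NUM (P Y : Matrix (Fin n) (Fin n) R) : Matrix (Fin n) (Fin n) R :=
  (1 - P).adjugate * (1 + P) * ((1 - Y).adjugate * (1 + Y))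

/-- denominator -/
def DEN (P Y : Matrix (Fin n) (Fin n) R) : R := (1 - P).det * (1 - Y).det

theorem NUM_map (φ : R →+* R') (P Y : Matrix (Fin n) (Fin n) R) :
    (NUM P Y).map φ = NUM (P.map φ) (Y.map φ) := by
  have h1 : ∀ A : Matrix (Fin n) (Fin n) R, A.adjugate.map φ = (A.map φ).adjugate :=
    fun A => RingHom.map_adjugate φ A
  have h2 : ∀ A : Matrix (Fin n) (Fin n) R, (1 - A).map φ = 1 - A.map φ := by
    intro A
    rw [← RingHom.mapMatrix_apply, map_sub, map_one]; rfl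
  have h3 : ∀ A : Matrix (Fin n) (Fin n) R, (1 + A).map φ = 1 + A.map φ := by
    intro A
    rw [← RingHom.mapMatrix_apply, map_add, map_one]; rfl
  unfold NUM
  rw [Matrix.map_mul, Matrix.map_mul, Matrix.map_mul, h1, h1, h2, h2, h3, h3]

theorem DEN_map (φ : R →+* R') (P Y : Matrix (Fin n) (Fin n) R) :
    φ (DEN P Y) = DEN (P.map φ) (Y.map φ) := by
  have h2 : ∀ A : Matrix (Fin n) (Fin n) R, (1 - A).map φ = 1 - A.map φ := by
    intro A
    rw [← RingHom.mapMatrix_apply, map_sub, map_one]; rfl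
  unfold DEN
  rw [map_mul, RingHom.map_det, RingHom.map_det, RingHom.mapMatrix_apply, RingHom.mapMatrix_apply,
    h2, h2]

end defs

section field

variable {n : ℕ} {K : Type} [Field K]

theorem cay_eq (P Y : Matrix (Fin n) (Fin n) K) :
    (1 - P)⁻¹ * (1 + P) * ((1 - Y)⁻¹ * (1 + Y)) = (DEN P Y)⁻¹ • NUM P Y := by
  rw [Matrix.inv_def, Matrix.inv_def, Ring.inverse_eq_inv']
  unfold NUM DEN
  simp only [Matrix.smul_mul, Matrix.mul_smul, smul_smul]
  congr 1
  rw [mul_inv]
  ring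

theorem cay_iso (J P : Matrix (Fin n) (Fin n) K) (hP : (1 - P).det ≠ 0)
    (h : Pᵀ * J + J * P = 0) :
    ((1 - P)⁻¹ * (1 + P))ᵀ * J * ((1 - P)⁻¹ * (1 + P)) = J := by
  have hu : IsUnit (1 - P).det := isUnit_iff_ne_zero.2 hP
  set C := (1 - P)⁻¹ * (1 + P) with hC
  have hcomm : (1 - P) * (1 + P) = (1 + P) * (1 - P) := by noncomm_ring
  have h1 : C * (1 - P) = 1 + P := by
    rw [hC, Matrix.mul_assoc, ← hcomm, ← Matrix.mul_assoc, Matrix.nonsing_inv_mul _ hu,
      Matrix.one_mul]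
  have h2 : (1 - P)ᵀ * Cᵀ = (1 + P)ᵀ := by
    rw [← Matrix.transpose_mul, h1]
  have hPJ : Pᵀ * J = -(J * P) := eq_neg_of_add_eq_zero_left h
  have h3 : (1 + P)ᵀ * J = J * (1 - P) := by
    rw [Matrix.transpose_add, Matrix.transpose_one, Matrix.add_mul, hPJ]
    noncomm_ring
  have h4 : (1 - P)ᵀ * J = J * (1 + P) := by
    rw [Matrix.transpose_sub, Matrix.transpose_one, Matrix.sub_mul, hPJ]
    noncomm_ring
  have h5 : (1 - P)ᵀ * (Cᵀ * J * C) * (1 - P) = (1 - P)ᵀ * J * (1 - P) := by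
    calc (1 - P)ᵀ * (Cᵀ * J * C) * (1 - P) = ((1 - P)ᵀ * Cᵀ) * J * (C * (1 - P)) := by
          noncomm_ring
      _ = (1 + P)ᵀ * J * (1 + P) := by rw [h1, h2]
      _ = J * ((1 - P) * (1 + P)) := by rw [h3, Matrix.mul_assoc]
      _ = J * ((1 + P) * (1 - P)) := by rw [hcomm]
      _ = (1 - P)ᵀ * J * (1 - P) := by rw [h4, Matrix.mul_assoc]
  have hut : IsUnit ((1 - P)ᵀ).det := by rwa [Matrix.det_transpose]
  have h6 : (Cᵀ * J * C) * (1 - P) = J * (1 - P) := by
    have := congrArg (fun M => ((1 - P)ᵀ)⁻¹ * M) h5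
    simp only [← Matrix.mul_assoc] at this
    rw [Matrix.nonsing_inv_mul _ hut, Matrix.one_mul] at this
    simpa [Matrix.mul_assoc] using this
  have := congrArg (fun M => M * (1 - P)⁻¹) h6
  simp only [Matrix.mul_assoc] at this
  rw [Matrix.mul_nonsing_inv _ hu, Matrix.mul_one, Matrix.mul_one] at this
  simpa [Matrix.mul_assoc] using this

end field

theorem XX_lie {n : ℕ} {Q R : Type} [Field Q] [Field R] (j : Q →+* R) (s : ℤ)
    (hs : s = 1 ∨ s = -1) (J : Matrix (Fin n) (Fin n) Q) (hJ : Jᵀ = s • J) (hd : J.det ≠ 0)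
    (w : Matrix (Fin n) (Fin n) R) :
    (XX j s J⁻¹ w)ᵀ * J.map j + J.map j * XX j s J⁻¹ w = 0 := by
  have hu : IsUnit J.det := isUnit_iff_ne_zero.2 hd
  have h1 : J.map j * (J⁻¹).map j = 1 := by
    rw [← Matrix.map_mul, Matrix.mul_nonsing_inv _ hu]
    exact Matrix.map_one j (map_zero j) (map_one j)
  have hss : s * s = 1 := by rcases hs with rfl | rfl <;> norm_num
  have h2 : ((J⁻¹).map j)ᵀ * J.map j = s • (1 : Matrix (Fin n) (Fin n) R) := by
    have : (J.map j) = s • (J.map j)ᵀ := by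
      ext a b
      change j (J a b) = s • j (J b a)
      have h3 : J b a = s • J a b := congrFun (congrFun hJ a) b
      rw [h3, map_zsmul, smul_smul, hss, one_smul]
    conv_lhs => rw [this]
    rw [Matrix.mul_smul, ← Matrix.transpose_mul, h1, Matrix.transpose_one]
  unfold XX
  rw [Matrix.transpose_mul, Matrix.mul_assoc, h2, ← Matrix.mul_assoc, h1, Matrix.one_mul,
    Matrix.transpose_sub, Matrix.transpose_smul, Matrix.transpose_transpose, Matrix.mul_smul,
    Matrix.mul_one, smul_sub, smul_smul, hss, one_smul]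
  abel

theorem XX_surj {n : ℕ} {Q R : Type} [Field Q] [Field R] [CharZero R] (j : Q →+* R) (s : ℤ)
    (hs : s = 1 ∨ s = -1) (J : Matrix (Fin n) (Fin n) Q) (hJ : Jᵀ = s • J) (hd : J.det ≠ 0)
    (X : Matrix (Fin n) (Fin n) R) (hX : Xᵀ * J.map j + J.map j * X = 0) :
    ∃ w, XX j s J⁻¹ w = X := by
  have hu : IsUnit J.det := isUnit_iff_ne_zero.2 hd
  have h1 : (J⁻¹).map j * J.map j = 1 := by
    rw [← Matrix.map_mul, Matrix.nonsing_inv_mul _ hu]
    exact Matrix.map_one j (map_zero j) (map_one j)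
  have hss : s * s = 1 := by rcases hs with rfl | rfl <;> norm_num
  have hJt : (J.map j)ᵀ = s • J.map j := by
    ext a b
    change j (J b a) = s • j (J a b)
    have h3 : J b a = s • J a b := congrFun (congrFun hJ a) b
    rw [h3, map_zsmul]
  refine ⟨(2⁻¹ : R) • (J.map j * X), ?_⟩
  unfold XX
  have h3 : (J.map j * X)ᵀ = - (s • (J.map j * X)) := by
    rw [Matrix.transpose_mul, hJt, Matrix.mul_smul, eq_neg_of_add_eq_zero_left hX, smul_neg]
  rw [Matrix.transpose_smul, h3]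
  have h4 : (2⁻¹ : R) • (J.map j * X) - s • (2⁻¹ : R) • -(s • (J.map j * X)) = J.map j * X := by
    rw [smul_neg, smul_neg, sub_neg_eq_add, smul_comm s (2⁻¹ : R), smul_smul s s, hss, one_smul,
      ← add_smul]
    have : (2⁻¹ : R) + 2⁻¹ = 1 := by norm_num
    rw [this, one_smul]
  rw [h4, ← Matrix.mul_assoc, h1, Matrix.one_mul]

theorem XX_zero {n : ℕ} {Q R : Type} [CommRing Q] [CommRing R] (j : Q →+* R) (s : ℤ)
    (Ji : Matrix (Fin n) (Fin n) Q) : XX j s Ji 0 = 0 := by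
  unfold XX
  rw [Matrix.transpose_zero, smul_zero, sub_zero, Matrix.mul_zero]

theorem NUM_zero {n : ℕ} {R : Type} [CommRing R] :
    NUM (0 : Matrix (Fin n) (Fin n) R) 0 = 1 := by
  simp [NUM]

theorem DEN_zero {n : ℕ} {R : Type} [CommRing R] :
    DEN (0 : Matrix (Fin n) (Fin n) R) 0 = 1 := by
  simp [DEN]

theorem zd_gen (hcay : S_CAY2) (ℓ : ℕ) [Fact ℓ.Prime] (L : Type) [Field L] [Algebra ℚ_[ℓ] L]
    (ι : Type) [Fintype ι] (N : ι → ℕ)
    (J : ∀ i, Matrix (Fin (N i)) (Fin (N i)) ℚ_[ℓ]) (hJ : ∀ i, (J i)ᵀ = J i ∨ (J i)ᵀ = -J i)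
    (hdet : ∀ i, (J i).det ≠ 0) (ε : ℝ) (hε : 0 < ε)
    (f : MvPolynomial (Σ i, Fin (N i) × Fin (N i)) L)
    (hf : ∀ g : ∀ i, Matrix (Fin (N i)) (Fin (N i)) ℚ_[ℓ], (∀ i, (g i)ᵀ * J i * g i = J i) →
      (∀ i a b, ‖(g i - 1) a b‖ < ε) →
      MvPolynomial.eval (fun x => algebraMap ℚ_[ℓ] L (g x.1 x.2.1 x.2.2)) f = 0)
    (g : ∀ i, Matrix (Fin (N i)) (Fin (N i)) L)
    (hg : ∀ i, (g i)ᵀ * (J i).map (algebraMap ℚ_[ℓ] L) * g i = (J i).map (algebraMap ℚ_[ℓ] L))
    (hgdet : ∀ i, (g i).det = 1) :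
    MvPolynomial.eval (fun x => g x.1 x.2.1 x.2.2) f = 0 := by
  classical
  set j : ℚ_[ℓ] →+* L := algebraMap ℚ_[ℓ] L with hj
  have hjinj : Function.Injective j := (algebraMap ℚ_[ℓ] L).injective
  have : CharZero L := charZero_of_injective_algebraMap (algebraMap ℚ_[ℓ] L).injective
  have hs : ∀ i, ∃ s : ℤ, (s = 1 ∨ s = -1) ∧ (J i)ᵀ = s • J i := by
    intro i
    rcases hJ i with h | h
    · exact ⟨1, Or.inl rfl, by rw [h, one_smul]⟩
    · exact ⟨-1, Or.inr rfl, by rw [h, neg_smul, one_smul]⟩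
  choose s hs1 hs2 using hs
  -- the variables
  let σ := Bool × (Σ i, Fin (N i) × Fin (N i))
  let W : ∀ {R : Type}, (σ → R) → Bool → ∀ i, Matrix (Fin (N i)) (Fin (N i)) R :=
    fun z c i => Matrix.of fun a b => z (c, ⟨i, (a, b)⟩)
  have hWmap : ∀ {R R' : Type} (φ : R → R') (z : σ → R) (c : Bool) (i : ι),
      (W z c i).map φ = W (fun x => φ (z x)) c i := fun φ z c i => rfl
  -- generic matrices
  let jA : ℚ_[ℓ] →+* MvPolynomial σ L := C.comp j
  let U : Bool → ∀ i, Matrix (Fin (N i)) (Fin (N i)) (MvPolynomial σ L) :=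
    fun c i => XX jA (s i) (J i)⁻¹ (W (fun x => X x) c i)
  let y : (Σ i, Fin (N i) × Fin (N i)) → MvPolynomial σ L :=
    fun x => NUM (U false x.1) (U true x.1) x.2.1 x.2.2
  let D : (Σ i, Fin (N i) × Fin (N i)) → MvPolynomial σ L :=
    fun x => DEN (U false x.1) (U true x.1)
  have hU : ∀ (z : σ → L) c i, (U c i).map (eval z) = XX j (s i) (J i)⁻¹ (W z c i) := by
    intro z c i
    have h1 := XX_map jA (eval z) (s i) (J i)⁻¹ (W (fun x => (X x : MvPolynomial σ L)) c i)
    have h2 : (eval z).comp jA = j := by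
      ext a
      simp [jA]
    rw [h2, hWmap] at h1
    simp only [eval_X] at h1
    exact h1
  have hy : ∀ (z : σ → L) x, eval z (y x) =
      NUM (XX j (s x.1) (J x.1)⁻¹ (W z false x.1)) (XX j (s x.1) (J x.1)⁻¹ (W z true x.1))
        x.2.1 x.2.2 := by
    intro z x
    rw [← hU, ← hU, ← NUM_map]
    rfl
  have hD : ∀ (z : σ → L) x, eval z (D x) =
      DEN (XX j (s x.1) (J x.1)⁻¹ (W z false x.1)) (XX j (s x.1) (J x.1)⁻¹ (W z true x.1)) := by
    intro z x
    rw [← hU, ← hU, ← DEN_map]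
  obtain ⟨p, q, hpq⟩ := clear y D f
  -- the rational points
  let UQ : (σ → ℚ_[ℓ]) → Bool → ∀ i, Matrix (Fin (N i)) (Fin (N i)) ℚ_[ℓ] :=
    fun t c i => XX (RingHom.id _) (s i) (J i)⁻¹ (W t c i)
  have hWc : ∀ c i, Continuous fun t : σ → ℚ_[ℓ] => W t c i := by
    intro c i
    apply continuous_matrix
    intro a b
    exact continuous_apply _
  have hUc : ∀ c i, Continuous fun t => UQ t c i := by
    intro c i
    simp only [UQ, XX]
    have := hWc c i
    exact Continuous.matrix_mul continuous_const (this.sub (this.matrix_transpose.const_smul (s i)))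
  have hDc : ∀ i, Continuous fun t => DEN (UQ t false i) (UQ t true i) := by
    intro i
    simp only [DEN]
    have h1 := hUc false i
    have h2 := hUc true i
    exact ((continuous_const.sub h1).matrix_det).mul ((continuous_const.sub h2).matrix_det)
  have hNc : ∀ i, Continuous fun t => NUM (UQ t false i) (UQ t true i) := by
    intro i
    simp only [NUM]
    have h1 := hUc false i
    have h2 := hUc true i
    exact ((continuous_const.sub h1).matrix_adjugate.matrix_mul (continuous_const.add h1)).matrix_mul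
      ((continuous_const.sub h2).matrix_adjugate.matrix_mul (continuous_const.add h2))
  have hU0 : ∀ c i, UQ 0 c i = 0 := by
    intro c i
    have : W (0 : σ → ℚ_[ℓ]) c i = 0 := rfl
    simp only [UQ]
    rw [this, XX_zero]
  have hD0 : ∀ i, DEN (UQ 0 false i) (UQ 0 true i) = 1 := by
    intro i; rw [hU0, hU0, DEN_zero]
  have hN0 : ∀ i, NUM (UQ 0 false i) (UQ 0 true i) = 1 := by
    intro i; rw [hU0, hU0, NUM_zero]
  have ev1 : ∀ᶠ t in 𝓝 (0 : σ → ℚ_[ℓ]), ∀ i, DEN (UQ t false i) (UQ t true i) ≠ 0 := by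
    rw [eventually_all]
    intro i
    apply (hDc i).continuousAt.eventually_ne
    rw [hD0]; exact one_ne_zero
  have ev2 : ∀ᶠ t in 𝓝 (0 : σ → ℚ_[ℓ]), ∀ i a b,
      ‖((DEN (UQ t false i) (UQ t true i))⁻¹ • NUM (UQ t false i) (UQ t true i) - 1) a b‖ < ε := by
    rw [eventually_all]
    intro i
    rw [eventually_all]
    intro a
    rw [eventually_all]
    intro b
    have hc : ContinuousAt (fun t => ‖((DEN (UQ t false i) (UQ t true i))⁻¹ •
        NUM (UQ t false i) (UQ t true i) - 1) a b‖) 0 := by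
      apply ContinuousAt.norm
      have h1 : ContinuousAt (fun t => (DEN (UQ t false i) (UQ t true i))⁻¹) 0 :=
        (hDc i).continuousAt.inv₀ (by rw [hD0]; exact one_ne_zero)
      have h2 : ContinuousAt (fun t => NUM (UQ t false i) (UQ t true i) a b) 0 :=
        ((hNc i).matrix_elem a b).continuousAt
      exact (h1.mul h2).sub continuousAt_const
    have h0 : ‖((DEN (UQ 0 false i) (UQ 0 true i))⁻¹ •
        NUM (UQ 0 false i) (UQ 0 true i) - 1) a b‖ < ε := by
      rw [hD0, hN0, inv_one, one_smul, sub_self]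
      simpa using hε
    exact hc.eventually_lt_const h0
  obtain ⟨δ, hδ, hball⟩ := Metric.eventually_nhds_iff_ball.1 (ev1.and ev2)
  -- the polynomial vanishes at the small rational points
  have hvan : ∀ t : σ → ℚ_[ℓ], (∀ x, ‖t x‖ < δ) → eval (fun x => j (t x)) p = 0 := by
    intro t ht
    have htb : t ∈ Metric.ball (0 : σ → ℚ_[ℓ]) δ := by
      rw [mem_ball_zero_iff, pi_norm_lt_iff hδ]
      exact ht
    obtain ⟨e1, e2⟩ := hball t htb
    have hXXj : ∀ c i, XX j (s i) (J i)⁻¹ (W (fun x => j (t x)) c i) = (UQ t c i).map j := by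
      intro c i
      simp only [UQ]
      rw [XX_map, hWmap, RingHomCompTriple.comp_eq]
    have hz : ∀ x, eval (fun x => j (t x)) (D x) ≠ 0 := by
      intro x
      rw [hD, hXXj, hXXj, ← DEN_map]
      intro h
      rw [map_eq_zero] at h
      exact e1 x.1 h
    obtain ⟨-, h2⟩ := hpq _ hz
    rw [h2]
    have h3 : (fun x => eval (fun x => j (t x)) (y x) / eval (fun x => j (t x)) (D x)) =
        fun x => j (((DEN (UQ t false x.1) (UQ t true x.1))⁻¹ •
          NUM (UQ t false x.1) (UQ t true x.1)) x.2.1 x.2.2) := by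
      funext x
      rw [hy, hD, hXXj, hXXj, ← DEN_map, ← NUM_map, Matrix.smul_apply, smul_eq_mul, map_mul,
        map_inv₀, Matrix.map_apply]
      rw [div_eq_inv_mul]
    rw [h3]
    have h4 := hf (fun i => (DEN (UQ t false i) (UQ t true i))⁻¹ •
          NUM (UQ t false i) (UQ t true i)) ?_ e2
    · rw [h4, mul_zero]
    · intro i
      have hd := e1 i
      simp only [DEN] at hd
      have hd1 := left_ne_zero_of_mul hd
      have hd2 := right_ne_zero_of_mul hd
      have l1 : ∀ c, (UQ t c i)ᵀ * J i + J i * UQ t c i = 0 := by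
        intro c
        have := XX_lie (RingHom.id ℚ_[ℓ]) (s i) (hs1 i) (J i) (hs2 i) (hdet i) (W t c i)
        simpa [UQ] using this
      have c1 := cay_iso (J i) _ hd1 (l1 false)
      have c2 := cay_iso (J i) _ hd2 (l1 true)
      rw [← cay_eq, Matrix.transpose_mul]
      set A := (1 - UQ t false i)⁻¹ * (1 + UQ t false i) with hA
      set B := (1 - UQ t true i)⁻¹ * (1 + UQ t true i) with hB
      calc Bᵀ * Aᵀ * J i * (A * B) = Bᵀ * (Aᵀ * J i * A) * B := by noncomm_ring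
        _ = J i := by rw [c1, c2]
  have hp0 : p = 0 := by
    apply funext_set (fun _ : σ => j '' {a : ℚ_[ℓ] | ‖a‖ < δ})
    · intro _
      apply Set.Infinite.image hjinj.injOn
      have : {a : ℚ_[ℓ] | ‖a‖ < δ} ∈ 𝓝 (0 : ℚ_[ℓ]) := by
        have := Metric.ball_mem_nhds (0 : ℚ_[ℓ]) hδ
        convert this using 1
        ext a
        simp
      exact infinite_of_mem_nhds (0 : ℚ_[ℓ]) this
    · intro z hz
      have h1 : ∀ x, ∃ a : ℚ_[ℓ], ‖a‖ < δ ∧ j a = z x := by
        intro x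
        exact hz x (Set.mem_univ x)
      choose t ht1 ht2 using h1
      have h2 := hvan t ht1
      have h3 : (fun x => j (t x)) = z := by
        funext x; exact ht2 x
      rw [h3] at h2
      rw [h2, map_zero]
  -- decomposition of `g`
  have hdec : ∀ i, ∃ w v : Matrix (Fin (N i)) (Fin (N i)) L,
      (1 - XX j (s i) (J i)⁻¹ w).det ≠ 0 ∧ (1 - XX j (s i) (J i)⁻¹ v).det ≠ 0 ∧
      g i = (1 - XX j (s i) (J i)⁻¹ w)⁻¹ * (1 + XX j (s i) (J i)⁻¹ w) *
        ((1 - XX j (s i) (J i)⁻¹ v)⁻¹ * (1 + XX j (s i) (J i)⁻¹ v)) := by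
    intro i
    have hJ' : ((J i).map j)ᵀ = (J i).map j ∨ ((J i).map j)ᵀ = -(J i).map j := by
      rcases hJ i with h | h
      · left
        rw [← Matrix.transpose_map, h]
      · right
        rw [← Matrix.transpose_map, h]
        ext a b
        simp
    have hd' : ((J i).map j).det ≠ 0 := by
      have : ((J i).map j).det = j (J i).det := (RingHom.map_det j (J i)).symm
      rw [this]
      intro h
      exact hdet i ((map_eq_zero j).1 h)
    obtain ⟨P, Y, hP, hY, hP1, hY1, hgi⟩ := hcay L (N i) ((J i).map j) (g i) hJ' hd' (hg i) (hgdet i)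
    obtain ⟨w, hw⟩ := XX_surj j (s i) (hs1 i) (J i) (hs2 i) (hdet i) P hP
    obtain ⟨v, hv⟩ := XX_surj j (s i) (hs1 i) (J i) (hs2 i) (hdet i) Y hY
    exact ⟨w, v, by rw [hw]; exact hP1, by rw [hv]; exact hY1, by rw [hw, hv]; exact hgi⟩
  choose w v hw hv hgi using hdec
  let z : σ → L := fun x => if x.1 then v x.2.1 x.2.2.1 x.2.2.2 else w x.2.1 x.2.2.1 x.2.2.2
  have hz1 : ∀ i, W z false i = w i := by
    intro i
    ext a b
    simp [W, z]
  have hz2 : ∀ i, W z true i = v i := by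
    intro i
    ext a b
    simp [W, z]
  have hz : ∀ x, eval z (D x) ≠ 0 := by
    intro x
    rw [hD, hz1, hz2]
    exact mul_ne_zero (hw x.1) (hv x.1)
  obtain ⟨k1, k2⟩ := hpq z hz
  rw [hp0, map_zero] at k2
  have h3 : (fun x : (Σ i, Fin (N i) × Fin (N i)) => eval z (y x) / eval z (D x)) =
      fun x => g x.1 x.2.1 x.2.2 := by
    funext x
    rw [hy, hD, hz1, hz2, hgi x.1, cay_eq, Matrix.smul_apply, smul_eq_mul,
      div_eq_inv_mul]
  rw [h3] at k2
  rcases mul_eq_zero.1 k2.symm with h | h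
  · exact absurd h k1
  · exact h

theorem zd (h : S_CAY2) : S_ZD := by
  intro ℓ _ ι _ N J hJ hdet ε hε f hf g hg hgdet
  exact zd_gen h ℓ (AlgebraicClosure ℚ_[ℓ]) ι N J hJ hdet ε hε f hf g hg hgdet

end Pool.Agent.R932.ZD
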