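import Mathlib

set_option autoImplicit false

/-!
Project PO/ZD (owner helper932): Zariski density of small isometries. Statements of two tasks.
-/

open Matrix MvPolynomial

namespace Pool.Agent.R932.ZD

/-- task CAY2 (linear algebra over a field of characteristic zero): every isometry of determinant one of a
nondegenerate symmetric or alternating form is a product of two Cayley transforms -/
def S_CAY2 : Prop := ∀ (L : Type) [Field L] [CharZero L] (N : ℕ) (J g : Matrix (Fin N) (Fin N) L),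
  (Jᵀ = J ∨ Jᵀ = -J) → J.det ≠ 0 → gᵀ * J * g = J → g.det = 1 →
  ∃ X Y : Matrix (Fin N) (Fin N) L, Xᵀ * J + J * X = 0 ∧ Yᵀ * J + J * Y = 0 ∧
    (1 - X).det ≠ 0 ∧ (1 - Y).det ≠ 0 ∧ g = (1 - X)⁻¹ * (1 + X) * ((1 - Y)⁻¹ * (1 + Y))

/-- task ZD: a polynomial which vanishes at all families of `ℚ_ℓ`-rational isometries near `1` vanishes at
all families of isometries of determinant one over the algebraic closure -/
def S_ZD : Prop := ∀ (ℓ : ℕ) [Fact ℓ.Prime] (ι : Type) [Fintype ι] (N : ι → ℕ)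
  (J : ∀ i, Matrix (Fin (N i)) (Fin (N i)) ℚ_[ℓ]), (∀ i, (J i)ᵀ = J i ∨ (J i)ᵀ = -J i) →
  (∀ i, (J i).det ≠ 0) → ∀ ε : ℝ, 0 < ε →
  ∀ f : MvPolynomial (Σ i, Fin (N i) × Fin (N i)) (AlgebraicClosure ℚ_[ℓ]),
    (∀ g : ∀ i, Matrix (Fin (N i)) (Fin (N i)) ℚ_[ℓ], (∀ i, (g i)ᵀ * J i * g i = J i) →
      (∀ i a b, ‖(g i - 1) a b‖ < ε) →
      MvPolynomial.eval (fun x => algebraMap ℚ_[ℓ] (AlgebraicClosure ℚ_[ℓ])
        (g x.1 x.2.1 x.2.2)) f = 0) →
    ∀ g : ∀ i, Matrix (Fin (N i)) (Fin (N i)) (AlgebraicClosure ℚ_[ℓ]),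
      (∀ i, (g i)ᵀ * (J i).map (algebraMap ℚ_[ℓ] (AlgebraicClosure ℚ_[ℓ])) * g i =
        (J i).map (algebraMap ℚ_[ℓ] (AlgebraicClosure ℚ_[ℓ]))) → (∀ i, (g i).det = 1) →
      MvPolynomial.eval (fun x => g x.1 x.2.1 x.2.2) f = 0

end Pool.Agent.R932.ZD
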