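import Mathlib
import Pool.Agent.R932.ZD.Stm

set_option autoImplicit false

/-!
Subtask ZD-CAY2 (author helper391, for the project of helper932): every isometry of determinant one of a
nondegenerate symmetric or alternating form over a field of characteristic zero is a product of two
Cayley transforms.
-/

open Matrix

namespace Pool.Agent.R932.ZD

/-- the last step: from a suitable `X` to the second Cayley transform -/
theorem cay2_assembly {L : Type} [Field L] [CharZero L] {N : ℕ} (J g X : Matrix (Fin N) (Fin N) L)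
    (hJ : J.det ≠ 0) (hg : gᵀ * J * g = J) (hX : Xᵀ * J + J * X = 0) (h1 : (1 - X).det ≠ 0)
    (h2 : ((1 + g) + X * (1 - g)).det ≠ 0) :
    ∃ Y : Matrix (Fin N) (Fin N) L, Yᵀ * J + J * Y = 0 ∧ (1 - Y).det ≠ 0 ∧
      g = (1 - X)⁻¹ * (1 + X) * ((1 - Y)⁻¹ * (1 + Y)) := by
  classical
  set a : Matrix (Fin N) (Fin N) L := 1 + X with ha
  set b : Matrix (Fin N) (Fin N) L := 1 - X with hb
  have hXJ : Xᵀ * J = -(J * X) := eq_neg_of_add_eq_zero_left hX
  have hbJ : bᵀ * J = J * a := by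
    rw [hb, ha, transpose_sub, transpose_one, sub_mul, one_mul, hXJ, mul_add, mul_one, sub_neg_eq_add]
  have haJ : aᵀ * J = J * b := by
    rw [hb, ha, transpose_add, transpose_one, add_mul, one_mul, hXJ, mul_sub, mul_one, sub_eq_add_neg]
  have hab : a * b = b * a := by
    rw [hb, ha]; noncomm_ring
  have hdet : a.det = b.det := by
    have h := congrArg Matrix.det haJ
    rw [det_mul, det_mul, det_transpose, mul_comm J.det] at h
    exact mul_right_cancel₀ hJ h
  have hau : IsUnit a.det := by rw [hdet]; exact isUnit_iff_ne_zero.mpr h1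
  have hbu : IsUnit b.det := isUnit_iff_ne_zero.mpr h1
  have hnorm : aᵀ * J * a = bᵀ * J * b := by
    rw [haJ, hbJ, Matrix.mul_assoc, Matrix.mul_assoc, hab]
  set k : Matrix (Fin N) (Fin N) L := a⁻¹ * b * g with hk
  have hcomm : a⁻¹ * b = b * a⁻¹ := by
    calc a⁻¹ * b = a⁻¹ * b * (a * a⁻¹) := by rw [mul_nonsing_inv _ hau, Matrix.mul_one]
      _ = a⁻¹ * (b * a) * a⁻¹ := by simp only [Matrix.mul_assoc]
      _ = a⁻¹ * (a * b) * a⁻¹ := by rw [hab]
      _ = (a⁻¹ * a) * b * a⁻¹ := by simp only [Matrix.mul_assoc]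
      _ = b * a⁻¹ := by rw [nonsing_inv_mul _ hau, Matrix.one_mul]
  have hmid : (b * a⁻¹)ᵀ * J * (b * a⁻¹) = J := by
    rw [transpose_mul]
    calc a⁻¹ᵀ * bᵀ * J * (b * a⁻¹) = a⁻¹ᵀ * (bᵀ * J * b) * a⁻¹ := by simp only [Matrix.mul_assoc]
      _ = a⁻¹ᵀ * (aᵀ * J * a) * a⁻¹ := by rw [hnorm]
      _ = (a * a⁻¹)ᵀ * J * (a * a⁻¹) := by rw [transpose_mul]; simp only [Matrix.mul_assoc]
      _ = J := by rw [mul_nonsing_inv _ hau, transpose_one, Matrix.one_mul, Matrix.mul_one]
  have hkJ : kᵀ * J * k = J := by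
    rw [hk, hcomm, transpose_mul (b * a⁻¹) g]
    calc gᵀ * (b * a⁻¹)ᵀ * J * (b * a⁻¹ * g) = gᵀ * ((b * a⁻¹)ᵀ * J * (b * a⁻¹)) * g := by
          simp only [Matrix.mul_assoc]
      _ = J := by rw [hmid, hg]
  have hak : a * (1 + k) = (1 + g) + X * (1 - g) := by
    have h3 : a * k = b * g := by
      rw [hk, Matrix.mul_assoc a⁻¹, ← Matrix.mul_assoc a, mul_nonsing_inv _ hau, Matrix.one_mul]
    rw [Matrix.mul_add, h3, Matrix.mul_one, ha, hb]
    noncomm_ring
  have hku : IsUnit (k + 1).det := by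
    rw [isUnit_iff_ne_zero]
    intro h0
    apply h2
    rw [← hak, det_mul, add_comm 1 k, h0, mul_zero]
  have h2ne : (2 : L) ≠ 0 := two_ne_zero
  set c : Matrix (Fin N) (Fin N) L := (k + 1)⁻¹ with hc
  have hc1 : (k + 1) * c = 1 := mul_nonsing_inv _ hku
  have hc2 : c * (k + 1) = 1 := nonsing_inv_mul _ hku
  have hY1 : 1 - (k - 1) * c = (2 : L) • c := by
    have : (1 : Matrix (Fin N) (Fin N) L) - (k - 1) * c = (k + 1) * c - (k - 1) * c := by rw [hc1]
    rw [this, two_smul]; noncomm_ring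
  have hY2 : 1 + (k - 1) * c = (2 : L) • (k * c) := by
    have : (1 : Matrix (Fin N) (Fin N) L) + (k - 1) * c = (k + 1) * c + (k - 1) * c := by rw [hc1]
    rw [this, two_smul]; noncomm_ring
  have hY3 : ((1 : Matrix (Fin N) (Fin N) L) - (k - 1) * c)⁻¹ = (2 : L)⁻¹ • (k + 1) := by
    rw [hY1]
    apply inv_eq_right_inv
    rw [smul_mul_smul_comm, mul_inv_cancel₀ h2ne, hc2, one_smul]
  refine ⟨(k - 1) * c, ?_, ?_, ?_⟩
  · have hmain : (k + 1)ᵀ * ((((k - 1) * c)ᵀ * J + J * ((k - 1) * c))) * (k + 1) = 0 := by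
      have e1 : (k + 1)ᵀ * cᵀ = 1 := by rw [← transpose_mul, hc2, transpose_one]
      have e2 : (k + 1)ᵀ * cᵀ * ((k - 1)ᵀ * J * (k + 1)) = (k - 1)ᵀ * J * (k + 1) := by
        rw [e1, Matrix.one_mul]
      have hcomm2 : (k - 1) * c = c * (k - 1) := by
        have e3 : (k - 1) * (k + 1) = (k + 1) * (k - 1) := by noncomm_ring
        calc (k - 1) * c = c * (k + 1) * ((k - 1) * c) := by rw [hc2, Matrix.one_mul]
          _ = c * ((k + 1) * (k - 1)) * c := by simp only [Matrix.mul_assoc]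
          _ = c * ((k - 1) * (k + 1)) * c := by rw [e3]
          _ = c * (k - 1) * ((k + 1) * c) := by simp only [Matrix.mul_assoc]
          _ = c * (k - 1) := by rw [hc1, Matrix.mul_one]
      calc (k + 1)ᵀ * ((((k - 1) * c)ᵀ * J + J * ((k - 1) * c))) * (k + 1)
          = (k + 1)ᵀ * ((k - 1) * c)ᵀ * J * (k + 1) + (k + 1)ᵀ * J * ((k - 1) * c * (k + 1)) := by
            noncomm_ring
        _ = (k - 1)ᵀ * J * (k + 1) + (k + 1)ᵀ * J * (k - 1) := by
            have e4 : (k + 1)ᵀ * ((k - 1) * c)ᵀ = (k - 1)ᵀ := by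
              rw [← transpose_mul, Matrix.mul_assoc, hc2, Matrix.mul_one]
            rw [e4, Matrix.mul_assoc (k - 1) c, hc2, Matrix.mul_one]
        _ = (2 : L) • (kᵀ * J * k) - (2 : L) • J := by
            rw [transpose_sub, transpose_add, transpose_one, two_smul, two_smul]; noncomm_ring
        _ = 0 := by rw [hkJ, sub_self]
    have e5 : ∀ F : Matrix (Fin N) (Fin N) L, (k + 1)ᵀ * F * (k + 1) = 0 → F = 0 := by
      intro F hF
      have e1 : cᵀ * (k + 1)ᵀ = 1 := by rw [← transpose_mul, hc1, transpose_one]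
      calc F = (cᵀ * (k + 1)ᵀ) * F * ((k + 1) * c) := by rw [e1, hc1, Matrix.one_mul, Matrix.mul_one]
        _ = cᵀ * ((k + 1)ᵀ * F * (k + 1)) * c := by simp only [Matrix.mul_assoc]
        _ = 0 := by rw [hF, Matrix.mul_zero, Matrix.zero_mul]
    exact e5 _ hmain
  · rw [hY1, det_smul]
    refine mul_ne_zero (pow_ne_zero _ h2ne) ?_
    intro h0
    have := congrArg Matrix.det hc1
    rw [det_mul, h0, mul_zero, det_one] at this
    exact zero_ne_one this
  · rw [hY3, hY2, smul_mul_smul_comm, inv_mul_cancel₀ h2ne, one_smul]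
    have e6 : (k + 1) * (k * c) = k := by
      have e7 : (k + 1) * k = k * (k + 1) := by noncomm_ring
      rw [← Matrix.mul_assoc, e7, Matrix.mul_assoc, hc1, Matrix.mul_one]
    rw [e6, hk]
    calc g = (b⁻¹ * b) * g := by rw [nonsing_inv_mul _ hbu, Matrix.one_mul]
      _ = b⁻¹ * (a * a⁻¹) * b * g := by rw [mul_nonsing_inv _ hau, Matrix.mul_one]
      _ = b⁻¹ * a * (a⁻¹ * b * g) := by simp only [Matrix.mul_assoc]

/-- the choice of the parameter -/
theorem cay2_param {L : Type} [Field L] [CharZero L] {N : ℕ} (A B X : Matrix (Fin N) (Fin N) L)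
    (h2 : (A + X * B).det ≠ 0) :
    ∃ t : L, (1 - t • X).det ≠ 0 ∧ (A + (t • X) * B).det ≠ 0 := by
  classical
  set p : Polynomial L := (1 - (Polynomial.X : Polynomial L) • X.map Polynomial.C).det with hp
  set q : Polynomial L := (A.map Polynomial.C + (Polynomial.X : Polynomial L) • (X * B).map Polynomial.C).det
    with hq
  have hpe : ∀ t : L, p.eval t = (1 - t • X).det := by
    intro t
    rw [hp, ← Polynomial.coe_evalRingHom, RingHom.map_det]
    congr 1
    ext i j
    simp [Matrix.one_apply, apply_ite (Polynomial.eval t)]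
    ring
  have hqe : ∀ t : L, q.eval t = (A + (t • X) * B).det := by
    intro t
    rw [hq, ← Polynomial.coe_evalRingHom, RingHom.map_det]
    congr 1
    rw [smul_mul]
    generalize X * B = W
    ext i j
    simp
    ring
  by_contra hcon
  push Not at hcon
  have hz : p * q = 0 := by
    apply Polynomial.funext
    intro t
    rw [Polynomial.eval_mul, hpe, hqe, Polynomial.eval_zero]
    by_cases h : (1 - t • X).det = 0
    · rw [h, zero_mul]
    · rw [hcon t h, mul_zero]
  rcases mul_eq_zero.mp hz with h | h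
  · have := hpe 0
    rw [h] at this
    simp at this
  · have := hqe 1
    rw [h, one_smul, Polynomial.eval_zero] at this
    exact h2 this.symm

/-- the normal form of a square matrix up to transvections, as a rank factorisation together with a
parametrisation of the kernel -/
theorem cay2_normal {L : Type} [Field L] {N : ℕ} (M : Matrix (Fin N) (Fin N) L) :
    ∃ (R Z : Type) (_ : Fintype R) (_ : Fintype Z) (_ : DecidableEq R) (_ : DecidableEq Z)
      (P : Matrix (Fin N) R L) (Q P' : Matrix R (Fin N) L) (Q' : Matrix (Fin N) R L)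
      (T : Matrix (Fin N) Z L) (T' : Matrix Z (Fin N) L),
      Fintype.card R + Fintype.card Z = N ∧ M = P * Q ∧ P' * P = 1 ∧ Q * Q' = 1 ∧ M * T = 0 ∧
        T' * T = 1 ∧ ∀ y : Fin N → L, M.mulVec y = 0 → ∃ z : Z → L, y = T.mulVec z := by
  classical
  obtain ⟨l, l', D, hD⟩ := Matrix.Pivot.exists_list_transvec_mul_mul_list_transvec_eq_diagonal M
  set A := (l.map TransvectionStruct.toMatrix).prod with hA
  set A' := (l'.map TransvectionStruct.toMatrix).prod with hA'
  have hAd : IsUnit A.det := by rw [hA, TransvectionStruct.det_toMatrix_prod]; exact isUnit_one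
  have hAd' : IsUnit A'.det := by rw [hA', TransvectionStruct.det_toMatrix_prod]; exact isUnit_one
  have hM : M = A⁻¹ * diagonal D * A'⁻¹ := by
    rw [← hD]
    calc M = (A⁻¹ * A) * M * (A' * A'⁻¹) := by
          rw [nonsing_inv_mul _ hAd, mul_nonsing_inv _ hAd', Matrix.one_mul, Matrix.mul_one]
      _ = A⁻¹ * (A * M * A') * A'⁻¹ := by simp only [Matrix.mul_assoc]
  refine ⟨{i // D i ≠ 0}, {i // D i = 0}, inferInstance, inferInstance, inferInstance, inferInstance,
    A⁻¹.submatrix id Subtype.val, Matrix.of fun r j => D r.1 * A'⁻¹ r.1 j, A.submatrix Subtype.val id,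
    Matrix.of fun i r => A' i r.1 * (D r.1)⁻¹, A'.submatrix id Subtype.val,
    A'⁻¹.submatrix Subtype.val id, ?_, ?_, ?_, ?_, ?_, ?_, ?_⟩
  · have h := Fintype.card_subtype_compl (fun i : Fin N => D i = 0)
    have h2 := Fintype.card_subtype_le (fun i : Fin N => D i = 0)
    rw [Fintype.card_fin] at h h2
    have h3 : Fintype.card {i // D i ≠ 0} = Fintype.card {i // ¬ D i = 0} := rfl
    omega
  · rw [hM]
    ext i j
    rw [Matrix.mul_assoc, Matrix.mul_apply, Matrix.mul_apply]
    have e1 : ∀ k : Fin N, A⁻¹ i k * (diagonal D * A'⁻¹) k j = A⁻¹ i k * (D k * A'⁻¹ k j) := by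
      intro k; rw [diagonal_mul]
    simp only [e1, submatrix_apply, id_eq, of_apply]
    rw [← Fintype.sum_subtype_add_sum_subtype (fun k => D k = 0)
      (fun k => A⁻¹ i k * (D k * A'⁻¹ k j))]
    rw [Finset.sum_eq_zero, zero_add]
    rintro ⟨x, hx⟩ -
    simp only [hx, zero_mul, mul_zero]
  · ext r s
    have := congrFun (congrFun (mul_nonsing_inv A hAd) r.1) s.1
    rw [Matrix.mul_apply] at this ⊢
    simp only [submatrix_apply, id_eq]
    rw [this, Matrix.one_apply, Matrix.one_apply]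
    simp only [Subtype.ext_iff]
  · ext r s
    have := congrFun (congrFun (nonsing_inv_mul A' hAd') r.1) s.1
    rw [Matrix.mul_apply] at this ⊢
    simp only [of_apply]
    have e1 : ∀ x : Fin N, D r.1 * A'⁻¹ r.1 x * (A' x s.1 * (D s.1)⁻¹) =
        D r.1 * (D s.1)⁻¹ * (A'⁻¹ r.1 x * A' x s.1) := by intro x; ring
    simp only [e1]
    rw [← Finset.mul_sum, this, Matrix.one_apply, Matrix.one_apply]
    by_cases h : r = s
    · subst h
      rw [if_pos rfl, if_pos rfl, mul_one, mul_inv_cancel₀ r.2]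
    · rw [if_neg h, if_neg (fun h2 => h (Subtype.ext h2)), mul_zero]
  · have e1 : M * A'.submatrix id (Subtype.val : {i // D i = 0} → Fin N) =
        A⁻¹ * (diagonal D * (A'⁻¹ * A')).submatrix id (Subtype.val : {i // D i = 0} → Fin N) := by
      rw [hM]
      ext i j
      simp only [Matrix.mul_assoc]
      rfl
    rw [e1, nonsing_inv_mul _ hAd', Matrix.mul_one]
    have e2 : (diagonal D).submatrix id (Subtype.val : {i // D i = 0} → Fin N) = 0 := by
      ext i j
      rw [submatrix_apply, diagonal_apply]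
      split_ifs with h
      · have := j.2
        simp only [id_eq] at h ⊢
        rw [h, this]; rfl
      · rfl
    rw [e2, Matrix.mul_zero]
  · ext r s
    have := congrFun (congrFun (nonsing_inv_mul A' hAd') r.1) s.1
    rw [Matrix.mul_apply] at this ⊢
    simp only [submatrix_apply, id_eq]
    rw [this, Matrix.one_apply, Matrix.one_apply]
    simp only [Subtype.ext_iff]
  · intro y hy
    have e1 : (diagonal D).mulVec (A'⁻¹.mulVec y) = 0 := by
      have e2 : A.mulVec (M.mulVec y) = 0 := by rw [hy, mulVec_zero]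
      rw [hM, mulVec_mulVec, ← Matrix.mul_assoc, ← Matrix.mul_assoc, mul_nonsing_inv _ hAd,
        Matrix.one_mul] at e2
      rw [mulVec_mulVec]; exact e2
    refine ⟨fun z => A'⁻¹.mulVec y z.1, ?_⟩
    have e3 : y = A'.mulVec (A'⁻¹.mulVec y) := by
      rw [mulVec_mulVec, mul_nonsing_inv _ hAd', one_mulVec]
    conv_lhs => rw [e3]
    set w := A'⁻¹.mulVec y with hw
    ext i
    simp only [mulVec, dotProduct, submatrix_apply, id_eq]
    rw [← Fintype.sum_subtype_add_sum_subtype (fun k => D k = 0) (fun k => A' i k * w k)]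
    rw [Finset.sum_eq_zero (f := fun x : {x // ¬ D x = 0} => A' i x.1 * w x.1), add_zero]
    rintro ⟨x, hx⟩ -
    have e4 := congrFun e1 x
    rw [mulVec_diagonal] at e4
    have e5 : w x = 0 := by
      rcases mul_eq_zero.mp e4 with h | h
      · exact absurd h hx
      · exact h
    simp only [e5, mul_zero]

/-- parity: the determinant of an isometry of a symmetric form from a rank factorisation -/
theorem cay2_parity {L : Type} [Field L] {N : ℕ} (J h : Matrix (Fin N) (Fin N) L) {R : Type}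
    [Fintype R] [DecidableEq R] (P : Matrix (Fin N) R L) (Q P' : Matrix R (Fin N) L)
    (Q' : Matrix (Fin N) R L) (hsym : Jᵀ = J) (hJ : J.det ≠ 0) (hh : hᵀ * J * h = J)
    (hPQ : h = 1 - P * Q) (hP : P' * P = 1) (hQ : Q * Q' = 1) : h.det = (-1) ^ Fintype.card R := by
  have E1 : Qᵀ * Pᵀ * J + J * P * Q = Qᵀ * Pᵀ * J * P * Q := by
    rw [hPQ, transpose_sub, transpose_one, transpose_mul] at hh
    have e1 : (1 - Qᵀ * Pᵀ) * J * (1 - P * Q) =
        J - (Qᵀ * Pᵀ * J + J * P * Q - Qᵀ * Pᵀ * J * P * Q) := by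
      simp only [Matrix.sub_mul, Matrix.mul_sub, Matrix.one_mul, Matrix.mul_one, Matrix.mul_assoc]
      abel
    rw [e1] at hh
    have e2 : Qᵀ * Pᵀ * J + J * P * Q - Qᵀ * Pᵀ * J * P * Q = 0 := by
      have := sub_eq_self.mp hh
      exact this
    exact sub_eq_zero.mp e2
  obtain ⟨C, hC⟩ : ∃ C : Matrix R R L, C = Pᵀ * J * P - Pᵀ * J * Q' := ⟨_, rfl⟩
  have E2 : J * P = Qᵀ * C := by
    have e1 := congrArg (fun F => F * Q') E1
    simp only [Matrix.add_mul, Matrix.mul_assoc] at e1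
    rw [hQ, Matrix.mul_one] at e1
    rw [hC, Matrix.mul_sub]
    rw [Matrix.mul_assoc Pᵀ J Q', Matrix.mul_assoc Pᵀ J P, ← e1, add_sub_cancel_left]
  have E3 : Pᵀ * J = Cᵀ * Q := by
    have e1 := congrArg Matrix.transpose E2
    rw [transpose_mul, transpose_mul, transpose_transpose, hsym] at e1
    exact e1
  have E4 : Cᵀ + C = Cᵀ * (Q * P) := by
    have e1 : Qᵀ * (Cᵀ + C) * Q = Qᵀ * (Cᵀ * (Q * P)) * Q := by
      have e2 := E1
      rw [E2] at e2
      rw [Matrix.mul_assoc Qᵀ Pᵀ J, E3] at e2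
      rw [Matrix.mul_add, Matrix.add_mul]
      simp only [Matrix.mul_assoc] at e2 ⊢
      exact e2
    have e3 : Q'ᵀ * Qᵀ = 1 := by rw [← transpose_mul, hQ, transpose_one]
    calc Cᵀ + C = (Q'ᵀ * Qᵀ) * (Cᵀ + C) * (Q * Q') := by
          rw [e3, hQ, Matrix.one_mul, Matrix.mul_one]
      _ = Q'ᵀ * (Qᵀ * (Cᵀ + C) * Q) * Q' := by simp only [Matrix.mul_assoc]
      _ = Q'ᵀ * (Qᵀ * (Cᵀ * (Q * P)) * Q) * Q' := by rw [e1]
      _ = (Q'ᵀ * Qᵀ) * (Cᵀ * (Q * P)) * (Q * Q') := by simp only [Matrix.mul_assoc]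
      _ = Cᵀ * (Q * P) := by rw [e3, hQ, Matrix.one_mul, Matrix.mul_one]
  have E5 : C = -Cᵀ * (1 - Q * P) := by
    rw [Matrix.mul_sub, Matrix.mul_one, Matrix.neg_mul, ← E4]
    abel
  have hCd : C.det ≠ 0 := by
    have hJu : IsUnit J.det := isUnit_iff_ne_zero.mpr hJ
    have e1 : (P' * J⁻¹ * Qᵀ) * C = 1 := by
      rw [Matrix.mul_assoc, ← E2, Matrix.mul_assoc P', ← Matrix.mul_assoc J⁻¹, nonsing_inv_mul _ hJu,
        Matrix.one_mul, hP]
    intro h0
    have e2 := congrArg Matrix.det e1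
    rw [det_mul, h0, mul_zero, det_one] at e2
    exact zero_ne_one e2
  have E6 := congrArg Matrix.det E5
  rw [det_mul, det_neg, det_transpose] at E6
  have E7 : (-1 : L) ^ Fintype.card R * (1 - Q * P).det = 1 := by
    have e1 : C.det * ((-1 : L) ^ Fintype.card R * (1 - Q * P).det) = C.det * 1 := by
      rw [mul_one]; conv_rhs => rw [E6]
      ring
    exact mul_left_cancel₀ hCd e1
  have E8 : (1 - Q * P).det = (-1) ^ Fintype.card R := by
    have e1 : (-1 : L) ^ Fintype.card R * (-1 : L) ^ Fintype.card R = 1 := by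
      rw [← mul_pow]; simp
    calc (1 - Q * P).det = ((-1 : L) ^ Fintype.card R * (-1 : L) ^ Fintype.card R) *
          (1 - Q * P).det := by rw [e1, one_mul]
      _ = (-1 : L) ^ Fintype.card R * ((-1 : L) ^ Fintype.card R * (1 - Q * P).det) := by ring
      _ = _ := by rw [E7, mul_one]
  rw [hPQ, det_one_sub_mul_comm, E8]

/-- the first Cayley parameter -/
theorem cay2_first {L : Type} [Field L] [CharZero L] {N : ℕ} (J g : Matrix (Fin N) (Fin N) L)
    (e : L) (he : e * e = 1) (hsym : Jᵀ = e • J) (hJ : J.det ≠ 0) (hg : gᵀ * J * g = J)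
    {Z : Type} [Fintype Z] [DecidableEq Z] (T : Matrix (Fin N) Z L) (T' : Matrix Z (Fin N) L)
    (hT : (1 + g) * T = 0) (hT' : T' * T = 1)
    (hker : ∀ y : Fin N → L, (1 + g).mulVec y = 0 → ∃ z : Z → L, y = T.mulVec z)
    (K : Matrix Z Z L) (hK : Kᵀ = -(e • K)) (hKd : IsUnit K.det) :
    ∃ X : Matrix (Fin N) (Fin N) L, Xᵀ * J + J * X = 0 ∧ ((1 + g) + X * (1 - g)).det ≠ 0 := by
  have hJu : IsUnit J.det := isUnit_iff_ne_zero.mpr hJ
  have h2ne : (2 : L) ≠ 0 := two_ne_zero
  obtain ⟨U, hU⟩ : ∃ U : Matrix Z (Fin N) L, U = (2 : L)⁻¹ • T' := ⟨_, rfl⟩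
  have hW : (1 - g) * T = (2 : L) • T := by
    have e1 : (1 - g) * T = (2 : L) • T - (1 + g) * T := by
      rw [two_smul, Matrix.sub_mul, Matrix.add_mul, Matrix.one_mul]; abel
    rw [e1, hT, sub_zero]
  have hUW : U * ((1 - g) * T) = 1 := by
    rw [hW, hU, Matrix.smul_mul, Matrix.mul_smul, smul_smul, inv_mul_cancel₀ h2ne, hT', one_smul]
  obtain ⟨S, hS⟩ : ∃ S : Matrix (Fin N) (Fin N) L, S = Uᵀ * K * U := ⟨_, rfl⟩
  have hSt : Sᵀ = -(e • S) := by
    rw [hS, transpose_mul, transpose_mul, transpose_transpose, hK]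
    simp only [Matrix.neg_mul, Matrix.mul_neg, Matrix.smul_mul, Matrix.mul_smul, Matrix.mul_assoc]
  have hJit : (J⁻¹)ᵀ * J = e • 1 := by
    have e1 : Jᵀ * (J⁻¹)ᵀ = 1 := by rw [← transpose_mul, nonsing_inv_mul _ hJu, transpose_one]
    rw [hsym, Matrix.smul_mul] at e1
    have e2 : J * (J⁻¹)ᵀ = e • 1 := by
      rw [← e1, smul_smul, he, one_smul]
    have e3 : (J⁻¹)ᵀ = e • J⁻¹ := by
      calc (J⁻¹)ᵀ = J⁻¹ * (J * (J⁻¹)ᵀ) := by
            rw [← Matrix.mul_assoc, nonsing_inv_mul _ hJu, Matrix.one_mul]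
        _ = e • J⁻¹ := by rw [e2, Matrix.mul_smul, Matrix.mul_one]
    rw [e3, Matrix.smul_mul, nonsing_inv_mul _ hJu]
  refine ⟨J⁻¹ * S, ?_, ?_⟩
  · rw [transpose_mul, Matrix.mul_assoc, hJit, ← Matrix.mul_assoc J, mul_nonsing_inv _ hJu,
      Matrix.one_mul, hSt, Matrix.mul_smul, Matrix.mul_one, smul_neg, smul_smul, he, one_smul,
      neg_add_cancel]
  · have hfac : (1 + g) + J⁻¹ * S * (1 - g) = J⁻¹ * (J * (1 + g) + S * (1 - g)) := by
      rw [Matrix.mul_add, ← Matrix.mul_assoc J⁻¹ J, nonsing_inv_mul _ hJu, Matrix.one_mul,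
        ← Matrix.mul_assoc]
    rw [hfac, det_mul]
    refine mul_ne_zero ?_ ?_
    · have := isUnit_nonsing_inv_det J hJu
      exact this.ne_zero
    · intro hdet
      obtain ⟨y, hy0, hy⟩ := exists_mulVec_eq_zero_iff.mpr hdet
      apply hy0
      have hWM : ((1 - g) * T)ᵀ * (J * (1 + g)) = 0 := by
        rw [transpose_mul, transpose_sub, transpose_one]
        have e1 : (1 - gᵀ) * (J * (1 + g)) = -((1 + gᵀ) * J * (1 - g)) := by
          have e2 : (1 - gᵀ) * (J * (1 + g)) = J + J * g - gᵀ * J - gᵀ * J * g := by noncomm_ring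
          have e3 : (1 + gᵀ) * J * (1 - g) = J - J * g + gᵀ * J - gᵀ * J * g := by noncomm_ring
          rw [e2, e3, hg]; abel
        have e4 : Tᵀ * (1 + gᵀ) = 0 := by
          rw [← transpose_one, ← transpose_add, ← transpose_mul, hT, transpose_zero]
        rw [Matrix.mul_assoc, e1, Matrix.mul_neg, ← Matrix.mul_assoc, ← Matrix.mul_assoc, e4,
          Matrix.zero_mul, Matrix.zero_mul, neg_zero]
      have hWU : ((1 - g) * T)ᵀ * Uᵀ = 1 := by rw [← transpose_mul, hUW, transpose_one]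
      have e1 : (((1 - g) * T)ᵀ * (J * (1 + g) + S * (1 - g))).mulVec y = 0 := by
        rw [← mulVec_mulVec, hy, mulVec_zero]
      have e2 : ((1 - g) * T)ᵀ * (J * (1 + g) + S * (1 - g)) = K * (U * (1 - g)) := by
        rw [Matrix.mul_add, hWM, zero_add, hS]
        calc ((1 - g) * T)ᵀ * (Uᵀ * K * U * (1 - g))
            = (((1 - g) * T)ᵀ * Uᵀ) * (K * (U * (1 - g))) := by simp only [Matrix.mul_assoc]
          _ = _ := by rw [hWU, Matrix.one_mul]
      rw [e2] at e1
      have e3 : (U * (1 - g)).mulVec y = 0 := by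
        have e4 : K⁻¹.mulVec ((K * (U * (1 - g))).mulVec y) = 0 := by rw [e1, mulVec_zero]
        rw [mulVec_mulVec, ← Matrix.mul_assoc, nonsing_inv_mul _ hKd, Matrix.one_mul] at e4
        exact e4
      have e5 : (S * (1 - g)).mulVec y = 0 := by
        rw [hS, Matrix.mul_assoc, ← mulVec_mulVec, e3, mulVec_zero]
      have e6 : (J * (1 + g)).mulVec y = 0 := by
        rw [add_mulVec, e5, add_zero] at hy
        exact hy
      have e7 : (1 + g).mulVec y = 0 := by
        have e8 : J⁻¹.mulVec ((J * (1 + g)).mulVec y) = 0 := by rw [e6, mulVec_zero]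
        rw [mulVec_mulVec, ← Matrix.mul_assoc, nonsing_inv_mul _ hJu, Matrix.one_mul] at e8
        exact e8
      obtain ⟨z, hz⟩ := hker y e7
      have e9 : z = 0 := by
        rw [hz, mulVec_mulVec, Matrix.mul_assoc, hUW, one_mulVec] at e3
        exact e3
      rw [hz, e9, mulVec_zero]

theorem cay2 : S_CAY2 := by
  classical
  intro L _ _ N J g hsym hJ hg hdet
  obtain ⟨R, Z, iR, iZ, dR, dZ, P, Q, P', Q', T, T', hcard, hM, hP, hQ, hT, hT', hker⟩ :=
    cay2_normal (1 + g)
  have key : ∃ X : Matrix (Fin N) (Fin N) L, Xᵀ * J + J * X = 0 ∧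
      ((1 + g) + X * (1 - g)).det ≠ 0 := by
    rcases hsym with hs | hs
    · have hpar := cay2_parity J (-g) P Q P' Q' hs hJ (by
        rw [transpose_neg, Matrix.neg_mul, Matrix.neg_mul, Matrix.mul_neg, neg_neg, hg])
        (by rw [← hM]; abel) hP hQ
      rw [det_neg, hdet, mul_one, Fintype.card_fin] at hpar
      have heven : Even (Fintype.card Z) := by
        have e1 : (-1 : L) ^ Fintype.card Z = 1 := by
          have e2 : (-1 : L) ^ Fintype.card R * (-1 : L) ^ Fintype.card Z =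
              (-1 : L) ^ Fintype.card R * 1 := by
            rw [← pow_add, hcard, hpar, mul_one]
          exact mul_left_cancel₀ (pow_ne_zero _ (by norm_num)) e2
        by_contra hodd
        rw [Nat.not_even_iff_odd] at hodd
        rw [hodd.neg_one_pow] at e1
        norm_num at e1
      obtain ⟨m, hm⟩ := heven
      have hmc : Fintype.card Z = Fintype.card (Fin m ⊕ Fin m) := by
        rw [Fintype.card_sum, Fintype.card_fin, hm]
      let eq := Fintype.equivOfCardEq hmc
      refine cay2_first J g 1 (by ring) (by rw [one_smul, hs]) hJ hg T T' hT hT' hker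
        ((Matrix.J (Fin m) L).submatrix eq eq) ?_ ?_
      · rw [transpose_submatrix, Matrix.J_transpose, one_smul]; rfl
      · rw [det_submatrix_equiv_self]
        exact Matrix.isUnit_det_J (Fin m) L
    · refine cay2_first J g (-1) (by ring) (by rw [hs, neg_one_smul]) hJ hg T T' hT hT' hker 1 ?_ ?_
      · rw [transpose_one, neg_one_smul, neg_neg]
      · rw [det_one]; exact isUnit_one
  obtain ⟨X0, hX0, hX0d⟩ := key
  obtain ⟨t, ht1, ht2⟩ := cay2_param (1 + g) (1 - g) X0 hX0d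
  have hX : (t • X0)ᵀ * J + J * (t • X0) = 0 := by
    rw [transpose_smul, Matrix.smul_mul, Matrix.mul_smul, ← smul_add, hX0, smul_zero]
  obtain ⟨Y, hY1, hY2, hY3⟩ := cay2_assembly J g (t • X0) hJ hg hX ht1 ht2
  exact ⟨t • X0, Y, hX, hY1, ht1, hY2, hY3⟩

end Pool.Agent.R932.ZD
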